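import Pool.Agent.P.MP_7a8567_an.A0.Main
import Pool.Agent.P.MP_7a8567_an.T.Main
import Pool.Agent.P.MP_7a8567_an.Glue
import Pool.Agent.P.MP_7a8567_an.Alg.All

set_option autoImplicit false

namespace Pool.Agent.Results.MP_7a8567_an.PositiveCurvature

/-- For every smooth closed convex curve of positive curvature, the set of pairs of bounce parameters that start a periodic billiard orbit (the reflection law holds at every bounce and the orbit returns mod 1) has Lebesgue measure zero. -/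
theorem result :
    ∀ γ : ℝ → ℝ × ℝ,
      (∀ n : ℕ, ContDiff ℝ n γ) →
      (∀ s : ℝ, γ (s + 1) = γ s) →
      (∀ s t : ℝ, γ s = γ t → ∃ k : ℤ, t = s + k) →
      (∀ s : ℝ, 0 < (deriv γ s).1 * (deriv (deriv γ) s).2
                    - (deriv γ s).2 * (deriv (deriv γ) s).1) →
      MeasureTheory.volume
        {p : ℝ × ℝ | ∃ x : ℕ → ℝ, x 0 = p.1 ∧ x 1 = p.2 ∧
          (∀ i : ℕ, ∀ k : ℤ, x (i + 1) ≠ x i + k) ∧
          (∀ i : ℕ,
            (((γ (x (i + 1))).1 - (γ (x i)).1) * (deriv γ (x (i + 1))).1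
              + ((γ (x (i + 1))).2 - (γ (x i)).2) * (deriv γ (x (i + 1))).2)
            * Real.sqrt (((γ (x (i + 2))).1 - (γ (x (i + 1))).1) ^ 2
                + ((γ (x (i + 2))).2 - (γ (x (i + 1))).2) ^ 2)
            =
            (((γ (x (i + 2))).1 - (γ (x (i + 1))).1) * (deriv γ (x (i + 1))).1
              + ((γ (x (i + 2))).2 - (γ (x (i + 1))).2) * (deriv γ (x (i + 1))).2)
            * Real.sqrt (((γ (x (i + 1))).1 - (γ (x i)).1) ^ 2
                + ((γ (x (i + 1))).2 - (γ (x i)).2) ^ 2)) ∧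
          ∃ n : ℕ, 1 ≤ n ∧ ∃ k m : ℤ, x n = p.1 + k ∧ x (n + 1) = p.2 + m} = 0 :=
  Ivrii.A0.a0 (Ivrii.T.noClosed (Ivrii.noAlg Ivrii.alg0))

end Pool.Agent.Results.MP_7a8567_an.PositiveCurvature
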